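import Pool.Agent.BioW.Assemble

/-!
# Biorthogonal systems all of whose dual parts have weak*-closed norm-closed spans

For every infinite-dimensional Banach space `E` (real or complex) whose dual is norm-separable
there is a biorthogonal system `(x n, f n)` with `[x n] = E` and `[f n] = E*` such that for every
set `M` of indices the norm-closed span of `f n`, `n ∈ M`, is exactly the annihilator of the
`x j`, `j ∉ M`; in particular it is `σ(E*, E)`-closed.
-/

set_option autoImplicit false

open Submodule TopologicalSpace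

namespace Pool.Agent.Results.MP_0543b0_an.WeakStarSpans

theorem result {𝕜 : Type*} [RCLike 𝕜] {E : Type*} [NormedAddCommGroup E] [NormedSpace 𝕜 E]
    [CompleteSpace E] [SeparableSpace (StrongDual 𝕜 E)] (hinf : ¬ FiniteDimensional 𝕜 E) :
    ∃ (x : ℕ → E) (f : ℕ → StrongDual 𝕜 E),
      (∀ i j, f i (x j) = if i = j then 1 else 0) ∧
      closure (span 𝕜 (Set.range x) : Set E) = Set.univ ∧
      closure (span 𝕜 (Set.range f) : Set (StrongDual 𝕜 E)) = Set.univ ∧
      ∀ M : Set ℕ,
        closure (span 𝕜 (f '' M) : Set (StrongDual 𝕜 E)) =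
          {φ : StrongDual 𝕜 E | ∀ j, j ∉ M → φ (x j) = 0} ∧
        IsClosed {φ : WeakDual 𝕜 E | WeakDual.toStrongDual φ ∈
          closure (span 𝕜 (f '' M) : Set (StrongDual 𝕜 E))} := by
  obtain ⟨x, f, hb, hx, hf, hstrong⟩ := Pool.Agent.BioW.exists_strong (𝕜 := 𝕜) (E := E) hinf
  have hkey : ∀ M : Set ℕ, closure (span 𝕜 (f '' M) : Set (StrongDual 𝕜 E)) =
      {φ : StrongDual 𝕜 E | ∀ j, j ∉ M → φ (x j) = 0} := by
    intro M
    apply Set.Subset.antisymm
    · apply closure_minimal
      · intro φ hφ j hj
        have := Pool.Agent.BioW.pair_zero hb (A := M) (B := {j})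
          (Set.disjoint_singleton_right.mpr hj) hφ (subset_span ⟨j, rfl, rfl⟩)
        exact this
      · have : {φ : StrongDual 𝕜 E | ∀ j, j ∉ M → φ (x j) = 0} =
            ⋂ j, ⋂ (_ : j ∉ M), {φ : StrongDual 𝕜 E | φ (x j) = 0} := by
          ext φ
          simp
        rw [this]
        refine isClosed_iInter fun j => isClosed_iInter fun _ => ?_
        exact isClosed_eq (ContinuousLinearMap.apply 𝕜 𝕜 (x j)).continuous continuous_const
    · intro φ hφ
      have h1 : (span 𝕜 (f '' {n | φ (x n) ≠ 0})).topologicalClosure ≤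
          (span 𝕜 (f '' M)).topologicalClosure := by
        apply Submodule.topologicalClosure_mono
        apply span_mono
        apply Set.image_mono
        intro n hn
        by_contra hnM
        exact hn (hφ n hnM)
      exact h1 (hstrong φ)
  refine ⟨x, f, hb, ?_, ?_, fun M => ⟨hkey M, ?_⟩⟩
  · rw [← Submodule.topologicalClosure_coe, hx]
    rfl
  · rw [← Submodule.topologicalClosure_coe, hf]
    rfl
  · rw [hkey M]
    have : {φ : WeakDual 𝕜 E | WeakDual.toStrongDual φ ∈
          {φ : StrongDual 𝕜 E | ∀ j, j ∉ M → φ (x j) = 0}} =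
        ⋂ j, ⋂ (_ : j ∉ M), {φ : WeakDual 𝕜 E | φ (x j) = 0} := by
      ext φ
      simp
    rw [this]
    refine isClosed_iInter fun j => isClosed_iInter fun _ => ?_
    exact isClosed_eq (WeakDual.eval_continuous (x j)) continuous_const

end Pool.Agent.Results.MP_0543b0_an.WeakStarSpans
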